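import Pool.Agent.Y423.DG.Stm

/-!
# Project DG423: greedy upper bound for connected domination minus domination (helper905)
-/

set_option autoImplicit false

namespace Pool.Agent.Y905.DG423

open Finset Pool.Agent.Y423.DG

section

variable {V : Type} [Fintype V] {G : SimpleGraph V}

open scoped Classical

/-- closed neighbourhood -/
noncomputable def N (G : SimpleGraph V) (C : Finset V) : Finset V :=
  univ.filter (fun v => v ∈ C ∨ ∃ u ∈ C, G.Adj v u)

theorem mem_N {C : Finset V} {v : V} : v ∈ N G C ↔ v ∈ C ∨ ∃ u ∈ C, G.Adj v u := by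
  simp [N]

theorem sub_N (C : Finset V) : C ⊆ N G C := fun _ h => mem_N.2 (Or.inl h)

theorem N_mono {C D : Finset V} (h : C ⊆ D) : N G C ⊆ N G D := by
  intro v hv
  rcases mem_N.1 hv with h1 | ⟨u, hu, h1⟩
  · exact mem_N.2 (Or.inl (h h1))
  · exact mem_N.2 (Or.inr ⟨u, h hu, h1⟩)

theorem card_N {k : ℕ} (hk : ∀ v : V, k ≤ (G.neighborSet v).ncard) {C : Finset V}
    (hC : C.Nonempty) : k + 1 ≤ (N G C).card := by
  obtain ⟨u, hu⟩ := hC
  have h1 : insert u (G.neighborSet u) ⊆ ((N G C : Finset V) : Set V) := by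
    intro v hv
    rcases hv with rfl | hv
    · exact mem_coe.2 (sub_N _ hu)
    · exact mem_coe.2 (mem_N.2 (Or.inr ⟨u, hu, (G.mem_neighborSet u v).1 hv |>.symm⟩))
  have h2 := Set.ncard_le_ncard h1 (Set.toFinite _)
  rw [Set.ncard_coe_finset, Set.ncard_insert_of_notMem (by simp) (Set.toFinite _)] at h2
  have := hk u
  omega

theorem heavy [Nonempty V] {ι : Type} (I : Finset ι) (H : ι → Finset V) (b : ℕ)
    (hb : ∀ i ∈ I, b ≤ (H i).card) :
    ∃ v, b * I.card ≤ Fintype.card V * (I.filter (fun i => v ∈ H i)).card := by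
  by_contra hcon
  push Not at hcon
  have h1 : ∑ v : V, (I.filter (fun i => v ∈ H i)).card = ∑ i ∈ I, (H i).card := by
    simp only [card_filter]
    rw [sum_comm]
    refine sum_congr rfl fun i _ => ?_
    rw [sum_ite_mem, univ_inter, sum_const, smul_eq_mul, mul_one]
  have h2 : b * I.card ≤ ∑ i ∈ I, (H i).card := by
    rw [mul_comm, ← smul_eq_mul]
    exact card_nsmul_le_sum _ _ _ hb
  have h3 : ∑ v : V, Fintype.card V * (I.filter (fun i => v ∈ H i)).card <
      ∑ _v : V, b * I.card :=
    sum_lt_sum_of_nonempty univ_nonempty fun v _ => hcon v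
  rw [← mul_sum, h1, sum_const, card_univ, smul_eq_mul] at h3
  have h4 : Fintype.card V * (b * I.card) ≤ Fintype.card V * ∑ i ∈ I, (H i).card :=
    Nat.mul_le_mul_left _ h2
  omega

/-- density -/
noncomputable def aa (V : Type) [Fintype V] (k : ℕ) : ℝ := ((k : ℝ) + 1) / Fintype.card V

theorem heavy' [Nonempty V] {ι : Type} (I : Finset ι) (H : ι → Finset V) (k : ℕ)
    (hb : ∀ i ∈ I, k + 1 ≤ (H i).card) :
    ∃ v, aa V k * I.card ≤ ((I.filter (fun i => v ∈ H i)).card : ℝ) := by
  obtain ⟨v, hv⟩ := heavy I H (k + 1) hb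
  refine ⟨v, ?_⟩
  have h0 : (0 : ℝ) < Fintype.card V := by exact_mod_cast Fintype.card_pos
  unfold aa
  rw [div_mul_eq_mul_div, div_le_iff₀ h0, mul_comm _ (Fintype.card V : ℝ)]
  exact_mod_cast hv

/-- greedy domination -/
theorem greedy [Nonempty V] {k : ℕ} (hk : ∀ v : V, k ≤ (G.neighborSet v).ncard)
    (ha : aa V k ≤ 1) (s : ℕ) :
    ∃ D : Finset V, D.card ≤ s ∧
      (((univ \ N G D).card : ℕ) : ℝ) ≤ (1 - aa V k) ^ s * Fintype.card V := by
  induction s with
  | zero =>
    refine ⟨∅, by simp, ?_⟩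
    rw [pow_zero, one_mul]
    exact_mod_cast card_le_univ _
  | succ s ih =>
    obtain ⟨D, hD, hU⟩ := ih
    obtain ⟨w, hw⟩ := heavy' (univ \ N G D) (fun u => N G {u}) k
      fun u _ => card_N hk (singleton_nonempty u)
    refine ⟨insert w D, (card_insert_le _ _).trans (by omega), ?_⟩
    have h1 : univ \ N G (insert w D) ⊆
        (univ \ N G D) \ ((univ \ N G D).filter fun u => w ∈ N G {u}) := by
      intro u hu
      rw [mem_sdiff] at hu
      rw [mem_sdiff, mem_sdiff, mem_filter]
      refine ⟨⟨mem_univ _, fun h => hu.2 (N_mono (subset_insert _ _) h)⟩, fun h => hu.2 ?_⟩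
      rcases mem_N.1 h.2 with h2 | ⟨x, hx, h2⟩
      · rw [mem_singleton] at h2
        subst h2
        exact sub_N _ (mem_insert_self _ _)
      · rw [mem_singleton] at hx
        subst hx
        exact mem_N.2 (Or.inr ⟨w, mem_insert_self _ _, h2.symm⟩)
    have h2 := card_le_card h1
    rw [card_sdiff_of_subset (filter_subset _ _)] at h2
    have h3 : ((univ \ N G (insert w D)).card : ℝ) +
        (((univ \ N G D).filter fun u => w ∈ N G {u}).card : ℝ) ≤ ((univ \ N G D).card : ℝ) := by
      have h4 := card_filter_le (univ \ N G D) (fun u => w ∈ N G {u})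
      exact_mod_cast (by omega : (univ \ N G (insert w D)).card +
        ((univ \ N G D).filter fun u => w ∈ N G {u}).card ≤ (univ \ N G D).card)
    calc ((univ \ N G (insert w D)).card : ℝ) ≤ (1 - aa V k) * ((univ \ N G D).card : ℝ) := by
          linarith
      _ ≤ (1 - aa V k) * ((1 - aa V k) ^ s * Fintype.card V) :=
          mul_le_mul_of_nonneg_left hU (by linarith)
      _ = _ := by ring

theorem dom_le [Nonempty V] {k : ℕ} (hk : ∀ v : V, k ≤ (G.neighborSet v).ncard)
    (ha : aa V k ≤ 1) (s : ℕ) :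
    (domNumber G : ℝ) ≤ s + (1 - aa V k) ^ s * Fintype.card V := by
  obtain ⟨D, hD, hU⟩ := greedy hk ha s
  have h1 : IsDominating G (D ∪ (univ \ N G D)) := by
    intro v
    by_cases hv : v ∈ N G D
    · rcases mem_N.1 hv with h | ⟨u, hu, h⟩
      · exact Or.inl (mem_union_left _ h)
      · exact Or.inr ⟨u, mem_union_left _ hu, h⟩
    · exact Or.inl (mem_union_right _ (mem_sdiff.2 ⟨mem_univ _, hv⟩))
  have h2 : domNumber G ≤ (D ∪ (univ \ N G D)).card := Nat.sInf_le ⟨_, h1, rfl⟩
  have h3 := card_union_le D (univ \ N G D)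
  have h4 : domNumber G ≤ s + (univ \ N G D).card := by omega
  have h5 : (domNumber G : ℝ) ≤ s + ((univ \ N G D).card : ℕ) := by exact_mod_cast h4
  linarith

/-- pieces -/
structure Pc (G : SimpleGraph V) (CC : Finset (Finset V)) (M : ℕ) : Prop where
  conn : ∀ C ∈ CC, (G.induce (C : Set V)).Connected
  dom : IsDominating G (CC.biUnion id)
  card : (CC.biUnion id).card ≤ M

theorem conn_ne {C : Finset V} (h : (G.induce (C : Set V)).Connected) : C.Nonempty := by
  obtain ⟨⟨v, hv⟩⟩ := h.nonempty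
  exact ⟨v, hv⟩

theorem conn_single (v : V) : (G.induce (({v} : Finset V) : Set V)).Connected := by
  have h1 : Nonempty ((({v} : Finset V) : Set V) : Type) := ⟨⟨v, by simp⟩⟩
  have h2 : Subsingleton ((({v} : Finset V) : Set V) : Type) := by
    refine ⟨fun a b => Subtype.ext ?_⟩
    have ha := a.2
    have hb := b.2
    rw [mem_coe, mem_singleton] at ha hb
    rw [ha, hb]
  exact SimpleGraph.Connected.of_subsingleton

theorem conn_insert {C : Finset V} (h : (G.induce (C : Set V)).Connected) {v : V}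
    (hv : v ∈ N G C) : (G.induce ((insert v C : Finset V) : Set V)).Connected := by
  rcases mem_N.1 hv with h1 | ⟨u, hu, h1⟩
  · rwa [insert_eq_of_mem h1]
  · have := SimpleGraph.connected_induce_union (conn_single (G := G) v).preconnected
      h.preconnected (v := v) (w := u) (by simp) (mem_coe.2 hu) h1
    rwa [insert_eq, coe_union]

theorem conn_star (F : Finset (Finset V)) (v : V)
    (h : ∀ C ∈ F, (G.induce (C : Set V)).Connected ∧ v ∈ N G C) :
    (G.induce ((insert v (F.biUnion id) : Finset V) : Set V)).Connected := by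
  induction F using Finset.induction_on with
  | empty => simpa using conn_single (G := G) v
  | insert C F _ ih =>
    have h1 := ih fun D hD => h D (mem_insert_of_mem hD)
    obtain ⟨h2, h3⟩ := h C (mem_insert_self _ _)
    have h4 := conn_insert h2 h3
    have h5 := SimpleGraph.induce_union_connected h4.preconnected h1.preconnected
      ⟨v, mem_coe.2 (mem_insert_self _ _), mem_coe.2 (mem_insert_self _ _)⟩
    have e : insert v ((insert C F).biUnion id) = insert v C ∪ insert v (F.biUnion id) := by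
      rw [biUnion_insert, id]
      ext x
      simp only [mem_insert, mem_union]
      tauto
    rw [e, coe_union]
    exact h5

theorem dom_mono {S T : Finset V} (h : IsDominating G S) (hST : S ⊆ T) : IsDominating G T := by
  intro v
  rcases h v with h1 | ⟨u, hu, h1⟩
  · exact Or.inl (hST h1)
  · exact Or.inr ⟨u, hST hu, h1⟩

/-- replace the pieces in `F` by one connected piece `P` which contains them -/
theorem Pc.replace {CC F : Finset (Finset V)} {M j : ℕ} (h : Pc G CC M) (hF : F ⊆ CC)
    {P : Finset V} (hP : (G.induce (P : Set V)).Connected) (hFP : F.biUnion id ⊆ P)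
    (hj : (P \ CC.biUnion id).card ≤ j) :
    Pc G (insert P (CC \ F)) (M + j) := by
  have hsub : CC.biUnion id ⊆ (insert P (CC \ F)).biUnion id := by
    intro x hx
    rw [mem_biUnion] at hx ⊢
    obtain ⟨C, hC, hx⟩ := hx
    by_cases h1 : C ∈ F
    · exact ⟨P, mem_insert_self _ _, hFP (mem_biUnion.2 ⟨C, h1, hx⟩)⟩
    · exact ⟨C, mem_insert_of_mem (mem_sdiff.2 ⟨hC, h1⟩), hx⟩
  refine ⟨?_, dom_mono h.dom hsub, ?_⟩
  · intro C hC
    rcases mem_insert.1 hC with rfl | hC
    · exact hP
    · exact h.conn C (mem_sdiff.1 hC).1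
  · have h1 : (insert P (CC \ F)).biUnion id ⊆ CC.biUnion id ∪ (P \ CC.biUnion id) := by
      intro x hx
      rw [mem_biUnion] at hx
      obtain ⟨C, hC, hx⟩ := hx
      by_cases h2 : x ∈ CC.biUnion id
      · exact mem_union_left _ h2
      · rcases mem_insert.1 hC with rfl | hC
        · exact mem_union_right _ (mem_sdiff.2 ⟨hx, h2⟩)
        · exact absurd (mem_biUnion.2 ⟨C, (mem_sdiff.1 hC).1, hx⟩) h2
    have h2 := card_le_card h1
    have h3 := card_union_le (CC.biUnion id) (P \ CC.biUnion id)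
    have h4 := h.card
    omega

theorem Pc.step [Nonempty V] {k : ℕ} (hk : ∀ v : V, k ≤ (G.neighborSet v).ncard)
    {CC : Finset (Finset V)} {M : ℕ} (h : Pc G CC M) :
    ∃ CC' : Finset (Finset V), Pc G CC' (M + 1) ∧
      (CC'.card : ℝ) ≤ (1 - aa V k) * CC.card + 1 := by
  obtain ⟨v, hv⟩ := heavy' CC (fun C => N G C) k fun C hC => card_N hk (conn_ne (h.conn C hC))
  set F := CC.filter (fun C => v ∈ N G C) with hF
  have hFs : F ⊆ CC := filter_subset _ _
  refine ⟨insert (insert v (F.biUnion id)) (CC \ F), ?_, ?_⟩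
  · apply h.replace hFs
    · apply conn_star
      intro C hC
      rw [hF, mem_filter] at hC
      exact ⟨h.conn C hC.1, hC.2⟩
    · exact subset_insert _ _
    · have : insert v (F.biUnion id) \ CC.biUnion id ⊆ {v} := by
        intro x hx
        rw [mem_sdiff, mem_insert] at hx
        rcases hx.1 with h1 | h1
        · exact mem_singleton.2 h1
        · exact absurd (biUnion_subset_biUnion_of_subset_left _ hFs h1) hx.2
      exact (card_le_card this).trans (by simp)
  · have h1 := card_insert_le (insert v (F.biUnion id)) (CC \ F)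
    rw [card_sdiff_of_subset hFs] at h1
    have h2 := card_le_card hFs
    have h3 : ((insert (insert v (F.biUnion id)) (CC \ F)).card : ℝ) + F.card ≤ CC.card + 1 := by
      exact_mod_cast (by omega : (insert (insert v (F.biUnion id)) (CC \ F)).card + F.card ≤
        CC.card + 1)
    linarith

theorem Pc.steps [Nonempty V] {k : ℕ} (hk : ∀ v : V, k ≤ (G.neighborSet v).ncard)
    (ha0 : 0 < aa V k) (ha : aa V k ≤ 1) {CC : Finset (Finset V)} {M : ℕ} (h : Pc G CC M) (t : ℕ) :
    ∃ CC' : Finset (Finset V), Pc G CC' (M + t) ∧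
      (CC'.card : ℝ) ≤ (1 - aa V k) ^ t * CC.card + 1 / aa V k := by
  induction t with
  | zero =>
    refine ⟨CC, h, ?_⟩
    have : 0 < 1 / aa V k := by positivity
    simp only [pow_zero, one_mul]
    linarith
  | succ t ih =>
    obtain ⟨C1, h1, h2⟩ := ih
    obtain ⟨C2, h3, h4⟩ := h1.step hk
    refine ⟨C2, h3, h4.trans ?_⟩
    have h5 : (1 - aa V k) * C1.card ≤ (1 - aa V k) * ((1 - aa V k) ^ t * CC.card + 1 / aa V k) :=
      mul_le_mul_of_nonneg_left h2 (by linarith)
    have h6 : (1 - aa V k) * ((1 - aa V k) ^ t * CC.card + 1 / aa V k) + 1 =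
        (1 - aa V k) ^ (t + 1) * CC.card + 1 / aa V k := by
      field_simp
      ring
    linarith

/-- two pieces can be merged at the cost of two vertices -/
theorem Pc.merge {CC : Finset (Finset V)} {M : ℕ} (h : Pc G CC M) (hG : G.Connected)
    (hc : 2 ≤ CC.card) : ∃ CC' : Finset (Finset V), Pc G CC' (M + 2) ∧ CC'.card + 1 ≤ CC.card ∧
      1 ≤ CC'.card := by
  obtain ⟨C1, hC1⟩ : CC.Nonempty := card_pos.1 (by omega)
  obtain ⟨C0, hC0, hne0⟩ := Finset.exists_mem_ne (s := CC) (by omega) C1
  -- points x, y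
  obtain ⟨x, y, C2, hC2, hne, hx, hy, hxy⟩ : ∃ (x y : V) (C2 : Finset V), C2 ∈ CC ∧ C2 ≠ C1 ∧
      x ∈ N G C1 ∧ y ∈ N G C2 ∧ (x = y ∨ G.Adj x y) := by
    by_contra hcon
    push Not at hcon
    obtain ⟨a, ha⟩ := conn_ne (h.conn C1 hC1)
    have hall : ∀ v, v ∈ N G C1 := by
      intro v
      obtain ⟨p⟩ := hG.preconnected a v
      have hstep : ∀ x y, x ∈ N G C1 → G.Adj x y → y ∈ N G C1 := by
        intro x y hx hxy
        obtain ⟨C, hC, hyC⟩ : ∃ C ∈ CC, y ∈ N G C := by
          rcases h.dom y with h1 | ⟨u, hu, h1⟩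
          · obtain ⟨C, hC, h2⟩ := mem_biUnion.1 h1
            exact ⟨C, hC, sub_N _ h2⟩
          · obtain ⟨C, hC, h2⟩ := mem_biUnion.1 hu
            exact ⟨C, hC, mem_N.2 (Or.inr ⟨u, h2, h1⟩)⟩
        by_cases h3 : C = C1
        · rwa [h3] at hyC
        · exact absurd hxy (hcon x y C hC h3 hx hyC).2
      have hgen : ∀ (u w : V), G.Walk u w → u ∈ N G C1 → w ∈ N G C1 := by
        intro u w q
        induction q with
        | nil => exact id
        | cons h' _ ih => exact fun hu => ih (hstep _ _ hu h')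
      exact hgen a v p (sub_N _ ha)
    obtain ⟨b, hb⟩ := conn_ne (h.conn C0 hC0)
    exact (hcon b b C0 hC0 hne0 (hall b) (sub_N _ hb)).1 rfl
  set P : Finset V := insert x C1 ∪ insert y C2 with hP
  have hconn : (G.induce (P : Set V)).Connected := by
    have h1 := conn_insert (h.conn C1 hC1) hx
    have h2 := conn_insert (h.conn C2 hC2) hy
    rw [hP, coe_union]
    rcases hxy with rfl | hxy
    · exact SimpleGraph.induce_union_connected h1.preconnected h2.preconnected
        ⟨x, mem_coe.2 (mem_insert_self _ _), mem_coe.2 (mem_insert_self _ _)⟩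
    · exact SimpleGraph.connected_induce_union h1.preconnected h2.preconnected
        (mem_coe.2 (mem_insert_self _ _)) (mem_coe.2 (mem_insert_self _ _)) hxy
  have hFs : ({C1, C2} : Finset (Finset V)) ⊆ CC := by
    intro C hC
    rcases mem_insert.1 hC with rfl | hC
    · exact hC1
    · rw [mem_singleton.1 hC]
      exact hC2
  refine ⟨insert P (CC \ {C1, C2}), ?_, ?_, ?_⟩
  · apply h.replace hFs hconn
    · intro z hz
      rw [mem_biUnion] at hz
      obtain ⟨C, hC, hz⟩ := hz
      rcases mem_insert.1 hC with rfl | hC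
      · exact mem_union_left _ (mem_insert_of_mem hz)
      · rw [mem_singleton.1 hC] at hz
        exact mem_union_right _ (mem_insert_of_mem hz)
    · have : P \ CC.biUnion id ⊆ {x, y} := by
        intro z hz
        rw [mem_sdiff, hP, mem_union, mem_insert, mem_insert] at hz
        rw [mem_insert, mem_singleton]
        rcases hz.1 with (h1 | h1) | (h1 | h1)
        · exact Or.inl h1
        · exact absurd (mem_biUnion.2 ⟨C1, hC1, h1⟩) hz.2
        · exact Or.inr h1
        · exact absurd (mem_biUnion.2 ⟨C2, hC2, h1⟩) hz.2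
      exact (card_le_card this).trans card_le_two
  · have h1 := card_insert_le P (CC \ {C1, C2})
    rw [card_sdiff_of_subset hFs, card_pair hne.symm] at h1
    omega
  · exact card_pos.2 ⟨P, mem_insert_self _ _⟩

theorem Pc.final (hG : G.Connected) : ∀ (c : ℕ) {CC : Finset (Finset V)} {M : ℕ}, Pc G CC M →
    CC.card = c + 1 → connDomNumber G ≤ M + 2 * c := by
  intro c
  induction c using Nat.strong_induction_on with
  | _ c ih =>
    intro CC M h hc
    rcases Nat.eq_zero_or_pos c with rfl | hpos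
    · obtain ⟨C, hC⟩ := card_eq_one.1 hc
      subst hC
      have h1 : (({C} : Finset (Finset V)).biUnion id) = C := by simp
      have h2 := h.dom
      have h3 := h.card
      rw [h1] at h2 h3
      have h4 := h.conn C (mem_singleton_self _)
      refine le_trans (Nat.sInf_le ⟨C, h2, h4, rfl⟩) ?_
      omega
    · obtain ⟨CC', h1, h2, h3⟩ := h.merge hG (by omega)
      have h4 := ih (CC'.card - 1) (by omega) h1 (by omega)
      omega

theorem exists_start (hn : Nonempty V) : ∃ CC : Finset (Finset V), Pc G CC (domNumber G) ∧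
    CC.card ≤ domNumber G ∧ 1 ≤ CC.card := by
  have hne : {m : ℕ | ∃ S : Finset V, IsDominating G S ∧ S.card = m}.Nonempty :=
    ⟨_, univ, fun v => Or.inl (mem_univ v), rfl⟩
  obtain ⟨S, hS, hc⟩ := Nat.sInf_mem hne
  have hb : (S.image fun v => ({v} : Finset V)).biUnion id = S := by
    ext x
    simp
  refine ⟨S.image fun v => {v}, ⟨?_, ?_, ?_⟩, ?_, ?_⟩
  · intro C hC
    obtain ⟨v, _, rfl⟩ := mem_image.1 hC
    exact conn_single v
  · rw [hb]
    exact hS
  · rw [hb]
    exact hc.le
  · exact card_image_le.trans hc.le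
  · obtain ⟨v⟩ := hn
    have : S.Nonempty := by
      rcases hS v with h | ⟨u, hu, _⟩
      · exact ⟨v, h⟩
      · exact ⟨u, hu⟩
    exact card_pos.2 (this.image _)

theorem pieces_pos {CC : Finset (Finset V)} {M : ℕ} [Nonempty V] (h : Pc G CC M) :
    1 ≤ CC.card := by
  obtain ⟨v⟩ := ‹Nonempty V›
  apply card_pos.2
  rcases h.dom v with h1 | ⟨u, h1, _⟩
  · obtain ⟨C, hC, _⟩ := mem_biUnion.1 h1
    exact ⟨C, hC⟩
  · obtain ⟨C, hC, _⟩ := mem_biUnion.1 h1
    exact ⟨C, hC⟩

/-- the bound for one graph -/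
theorem one_graph {n k : ℕ} (hn : Fintype.card V = n) (hG : G.Connected)
    (hk : ∀ v : V, k ≤ (G.neighborSet v).ncard) (hlog : 1 ≤ Real.log ((k : ℝ) + 1))
    (hkn : k + 1 < n) :
    ((connDomNumber G - domNumber G : ℕ) : ℝ) ≤
      Real.log (Real.log ((k : ℝ) + 1)) / (-Real.log (1 - ((k : ℝ) + 1) / n)) + 1 +
      6 * (n / ((k : ℝ) + 1)) := by
  have hne : Nonempty V := hG.nonempty
  set a : ℝ := ((k : ℝ) + 1) / n with ha
  have haa : aa V k = a := by unfold aa; rw [hn]
  have hn0 : (0 : ℝ) < n := by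
    have : 0 < n := by omega
    exact_mod_cast this
  have ha0 : 0 < a := by positivity
  have ha1 : a < 1 := by
    rw [ha, div_lt_one hn0]
    exact_mod_cast hkn
  set b : ℝ := -Real.log (1 - a) with hb
  have hba : a ≤ b := by
    have := Real.log_le_sub_one_of_pos (show 0 < 1 - a by linarith)
    rw [hb]
    linarith
  have hb0 : 0 < b := ha0.trans_le hba
  have hpow : ∀ (t : ℕ) (L : ℝ), 0 < L → Real.log L / b ≤ t → (1 - a) ^ t ≤ 1 / L := by
    intro t L hL ht
    rw [div_le_iff₀ hb0] at ht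
    have h1 : Real.log ((1 - a) ^ t) ≤ Real.log (1 / L) := by
      rw [Real.log_pow, Real.log_div one_ne_zero hL.ne', Real.log_one]
      rw [hb] at ht
      linarith
    exact (Real.log_le_log_iff (pow_pos (by linarith) t) (by positivity)).1 h1
  set L : ℝ := Real.log ((k : ℝ) + 1) with hL
  have hL0 : 0 < L := by linarith
  have hk1 : (0 : ℝ) < (k : ℝ) + 1 := by positivity
  -- the domination number
  set s : ℕ := ⌈L / b⌉₊ with hs
  have hs1 : L / b ≤ s := Nat.le_ceil _
  have hs2 : (s : ℝ) < L / b + 1 := Nat.ceil_lt_add_one (by positivity)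
  have hdom : (domNumber G : ℝ) ≤ L / a + 1 + 1 / a := by
    have h1 := dom_le (G := G) hk (by rw [haa]; exact ha1.le) s
    rw [haa, hn] at h1
    have h2 := hpow s ((k : ℝ) + 1) hk1 hs1
    have h3 : (1 - a) ^ s * n ≤ 1 / a := by
      calc (1 - a) ^ s * n ≤ 1 / ((k : ℝ) + 1) * n := mul_le_mul_of_nonneg_right h2 hn0.le
        _ = 1 / a := by rw [ha]; field_simp
    have h4 : L / b ≤ L / a := div_le_div_of_nonneg_left hL0.le ha0 hba
    linarith
  -- the pieces
  set T : ℝ := Real.log L / b with hT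
  have hT0 : 0 ≤ T := div_nonneg (Real.log_nonneg hlog) hb0.le
  set t : ℕ := ⌈T⌉₊ with ht
  have ht1 : T ≤ t := Nat.le_ceil _
  have ht2 : (t : ℝ) < T + 1 := Nat.ceil_lt_add_one hT0
  obtain ⟨C0, hC0, hc0, -⟩ := exists_start (G := G) hne
  obtain ⟨CC, hCC, hcc⟩ := hC0.steps hk (by rw [haa]; exact ha0) (by rw [haa]; exact ha1.le) t
  rw [haa] at hcc
  have hpos := pieces_pos hCC
  have hfin := Pc.final hG (CC.card - 1) hCC (by omega)
  have h5 := hpow t L hL0 ht1
  have h6 : (1 - a) ^ t * (C0.card : ℝ) ≤ 2 / a + 1 := by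
    have h7 : (C0.card : ℝ) ≤ domNumber G := by exact_mod_cast hc0
    calc (1 - a) ^ t * (C0.card : ℝ) ≤ 1 / L * (L / a + 1 + 1 / a) :=
          mul_le_mul h5 (h7.trans hdom) (Nat.cast_nonneg _) (by positivity)
      _ = 1 / a + (1 + 1 / a) / L := by
          field_simp
          ring
      _ ≤ 1 / a + (1 + 1 / a) := by
          have : (1 + 1 / a) / L ≤ 1 + 1 / a := div_le_self (by positivity) hlog
          linarith
      _ = 2 / a + 1 := by ring
  have h8 : ((CC.card - 1 : ℕ) : ℝ) ≤ 3 / a := by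
    rw [Nat.cast_sub hpos]
    push_cast
    have : 3 / a = 2 / a + 1 / a := by ring
    linarith
  have h9 : connDomNumber G - domNumber G ≤ t + 2 * (CC.card - 1) := by omega
  have h10 : ((connDomNumber G - domNumber G : ℕ) : ℝ) ≤ t + 2 * ((CC.card - 1 : ℕ) : ℝ) := by
    exact_mod_cast h9
  have h11 : 6 * ((n : ℝ) / ((k : ℝ) + 1)) = 2 * (3 / a) := by
    rw [ha]
    field_simp
    norm_num
  rw [h11]
  linarith

end

/-- **Job DG423-UP.** -/
theorem t_UPPER : S_UPPER := by
  intro n k hlog hkn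
  have hrhs : (0 : ℝ) ≤ Real.log (Real.log ((k : ℝ) + 1)) / (-Real.log (1 - ((k : ℝ) + 1) / n)) +
      1 + 6 * (n / ((k : ℝ) + 1)) := by
    have hn0 : (0 : ℝ) < n := by
      have : 0 < n := by omega
      exact_mod_cast this
    have ha0 : 0 < ((k : ℝ) + 1) / n := by positivity
    have ha1 : ((k : ℝ) + 1) / n < 1 := by
      rw [div_lt_one hn0]
      exact_mod_cast hkn
    have h1 : 0 ≤ -Real.log (1 - ((k : ℝ) + 1) / n) := by
      have := Real.log_nonpos (x := 1 - ((k : ℝ) + 1) / n) (by linarith) (by linarith)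
      linarith
    have h2 : 0 ≤ Real.log (Real.log ((k : ℝ) + 1)) := Real.log_nonneg hlog
    positivity
  rcases Set.eq_empty_or_nonempty {m : ℕ | ∃ (V : Type) (_ : Fintype V) (G : SimpleGraph V),
    Fintype.card V = n ∧ G.Connected ∧ (∀ v : V, k ≤ (G.neighborSet v).ncard) ∧
      m = connDomNumber G - domNumber G} with h0 | hne
  · unfold gap
    rw [h0]
    simpa using hrhs
  · obtain ⟨V, _, G, hn, hG, hk, hm⟩ := Nat.sSup_mem hne (bddAbove_gap n k)
    unfold gap
    rw [hm]
    exact one_graph hn hG hk hlog hkn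

end Pool.Agent.Y905.DG423

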